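import Pool.Agent.H.MP_ddaf7c_pr.A

/-! On the two by four grid the random minimum spanning tree splits evenly more often than the uniform one. -/

open MeasureTheory SimpleGraph

namespace Pool.Agent.Results.MP_ddaf7c_pr.Grid

/-- some edge of `T` can be removed so that every component has half of the vertices -/
def Split {W : Type} (T : SimpleGraph W) : Prop :=
  ∃ e ∈ T.edgeSet, ∀ v, 2 * Nat.card {u // (T.deleteEdges {e}).Reachable v u} = Nat.card W

/-- `T` is a spanning tree of `G` of minimum total weight -/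
def IsMST {W : Type} (G : SimpleGraph W) (w : Sym2 W → ℝ) (T : SimpleGraph W) : Prop :=
  T ≤ G ∧ T.IsTree ∧ ∀ S ≤ G, S.IsTree → ∑ᶠ e ∈ T.edgeSet, w e ≤ ∑ᶠ e ∈ S.edgeSet, w e

theorem result : ∃ a b : ℕ, 1 ≤ a ∧ 1 ≤ b ∧ Even (a * b) ∧
    MeasurableSet {w | ∀ T, IsMST ((pathGraph a).boxProd (pathGraph b)) w T → Split T} ∧
    (∀ w, ∃ T, IsMST ((pathGraph a).boxProd (pathGraph b)) w T) ∧
    (Nat.card {T // T ≤ (pathGraph a).boxProd (pathGraph b) ∧ T.IsTree ∧ Split T} : ℝ) /
        Nat.card {T // T ≤ (pathGraph a).boxProd (pathGraph b) ∧ T.IsTree} <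
      (Measure.pi fun _ : Sym2 (Fin a × Fin b) => (volume : Measure ℝ).restrict (Set.Icc 0 1)).real
        {w | ∀ T, IsMST ((pathGraph a).boxProd (pathGraph b)) w T → Split T} :=
  ⟨2, 4, by norm_num, by norm_num, by decide, Pool.Agent.H.MP_ddaf7c_pr.main⟩

end Pool.Agent.Results.MP_ddaf7c_pr.Grid
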